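import Pool.Agent.K.MP_49bf82_gt.C0

open Manifold
open scoped ContDiff
open Pool.Agent.P.MP_49bf82_gt

namespace Pool.Agent.Results.MP_49bf82_gt.TorusSymplectic

theorem result {E F : Type*} [NormedAddCommGroup E] [NormedSpace ℝ E] [FiniteDimensional ℝ E]
    [NormedAddCommGroup F] [NormedSpace ℝ F] [FiniteDimensional ℝ F]
    {V W : Type*} [TopologicalSpace V] [ChartedSpace E V] [IsManifold 𝓘(ℝ, E) ∞ V]
    [CompactSpace V] [ConnectedSpace V]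
    [TopologicalSpace W] [ChartedSpace F W] [IsManifold 𝓘(ℝ, F) ∞ W] [T2Space W] [ConnectedSpace W]
    (α : V → E →L[ℝ] ℝ) (hα : ∀ p, ContDiffAt ℝ ∞ (chartOne α p) (chartAt E p p))
    (Φ : V → ℂ) (hΦ : ContMDiff 𝓘(ℝ, E) 𝓘(ℝ, ℂ) ∞ Φ)
    (f : ℝ → V → V) (hf : IsSymplecticMonodromyFlow α Φ f)
    (σ : W → F →L[ℝ] F →L[ℝ] ℝ) (ι : ℝ × V × R2 → W) (φ : R2 → W → W) (μ : W → R2)
    (hW : IsEquivariantFilling α Φ σ ι φ μ) : SymplecticallyTrivial α Φ (f 1) :=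
  main_symplectic hα hΦ hW hf

end Pool.Agent.Results.MP_49bf82_gt.TorusSymplectic
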